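import Pool.Agent.H65.NV.PTargets

/-!
# (DRV) the functions of the discriminant
-/

set_option autoImplicit false

open MeasureTheory Set Filter NumberField NumberField.InfinitePlace
open Pool.Agent.H65.CM4 Pool.Agent.H61.NVK Pool.Agent.H89.NV Pool.Agent.H65.NV
open scoped Real nonZeroDivisors

namespace Pool.Agent.H83.NVP_DRV

/-- continuity of a product whose first factor has closed support in an open set -/
lemma cont_mul {X : Type*} [TopologicalSpace X] {K U : Set X} (hK : IsClosed K) (hU : IsOpen U)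
    (hKU : K ⊆ U) {g h : X → ℝ} (hg : Continuous g) (hg0 : ∀ x, x ∉ K → g x = 0)
    (hh : ContinuousOn h U) : Continuous (fun x => g x * h x) := by
  rw [continuous_iff_continuousAt]
  intro x
  by_cases hx : x ∈ U
  · exact hg.continuousAt.mul (hh.continuousAt (hU.mem_nhds hx))
  · have hxK : x ∉ K := fun h => hx (hKU h)
    have h0 : (fun x => g x * h x) =ᶠ[nhds x] fun _ => (0 : ℝ) := by
      filter_upwards [hK.isOpen_compl.mem_nhds hxK] with y hy
      rw [hg0 y hy, zero_mul]
    exact continuousAt_const.congr h0.symm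

section

variable {k : Type} [Field k] [NumberField k]

lemma DB_mono {m : ℕ} {L L' : ℝ} {φ : (Pl k → ℝ) → ℝ} (h : DB m L φ) (hL : L ≤ L') :
    DB m L' φ :=
  ⟨h.cont, h.sm, fun p e he => (h.bd p e he).trans hL⟩

lemma DB_scale {m : ℕ} {L T : ℝ} (hT : 0 < T) (φ Φ : (Pl k → ℝ) → ℝ)
    (hφ : Continuous φ) (h : ∀ d, φ d = Φ (fun v => d v / T))
    (hΦ : ∀ p e : Pl k → ℝ, (∀ v, |e v| ≤ 1) →
      ContDiff ℝ m (fun s : ℝ => Φ (fun v => p v + s * e v)) ∧
      ∀ s : ℝ, |iteratedDeriv m (fun s : ℝ => Φ (fun v => p v + s * e v)) s| ≤ L) :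
    DB m (L / T ^ m) φ := by
  have key : ∀ p e : Pl k → ℝ, (fun s : ℝ => φ (p + s • e)) =
      (fun s : ℝ => (fun s : ℝ => Φ (fun v => p v / T + s * e v)) (T⁻¹ * s)) := by
    intro p e
    funext s
    rw [h]
    have h1 : (fun v => (p + s • e) v / T) = (fun v => p v / T + T⁻¹ * s * e v) := by
      funext v
      simp only [Pi.add_apply, Pi.smul_apply, smul_eq_mul]
      rw [add_div]
      ring
    rw [h1]
  refine ⟨hφ, ?_, ?_⟩
  · intro p e he
    rw [key]
    exact (hΦ (fun v => p v / T) e he).1.comp (contDiff_const.mul contDiff_id)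
  · intro p e he
    rw [key]
    have h2 := iteratedDeriv_comp_const_mul (n := m) (hΦ (fun v => p v / T) e he).1 T⁻¹
    rw [h2]
    have h3 := (hΦ (fun v => p v / T) e he).2 (T⁻¹ * 0)
    simp only [smul_eq_mul]
    rw [abs_mul, abs_of_nonneg (by positivity)]
    rw [div_eq_inv_mul, ← inv_pow]
    exact mul_le_mul_of_nonneg_left h3 (by positivity)

lemma isClosed_box (a b : ℝ) : IsClosed {d : Pl k → ℝ | ∀ v, d v ∈ Icc a b} := by
  have h : {d : Pl k → ℝ | ∀ v, d v ∈ Icc a b} = ⋂ v, {d : Pl k → ℝ | d v ∈ Icc a b} := by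
    ext d
    simp
  rw [h]
  exact isClosed_iInter fun v => isClosed_Icc.preimage (continuous_apply v)

lemma isOpen_cone : IsOpen {d : Pl k → ℝ | ∀ v, 0 < d v} := by
  have h : {d : Pl k → ℝ | ∀ v, 0 < d v} = ⋂ v, {d : Pl k → ℝ | 0 < d v} := by
    ext d
    simp
  rw [h]
  exact isOpen_iInter_of_finite fun v => isOpen_lt continuous_const (continuous_apply v)

lemma sD_pos {d : Pl k → ℝ} (hd : ∀ v, 0 < d v) : 0 < sD d :=
  Real.sqrt_pos.2 (Finset.prod_pos fun v _ => hd v)

lemma cont_sD : Continuous (fun d : Pl k → ℝ => sD d) := by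
  unfold sD
  exact (continuous_finsetProd _ fun v _ => continuous_apply v).sqrt

end

variable (k : Type) [Field k] [NumberField k] [IsTotallyReal k]

lemma contOn_Vk (hVKF : T_VKF) {x : ℝ} (hx : 0 < x) :
    ContinuousOn (fun d : Pl k → ℝ => Vk k (x / sD d)) {d | ∀ v, 0 < d v} := by
  refine ContinuousOn.comp (g := Vk k) (f := fun d : Pl k → ℝ => x / sD d) (t := Ioi 0)
    (hVKF k).2.1 ?_ ?_
  · refine ContinuousOn.div continuousOn_const cont_sD.continuousOn ?_
    intro d hd
    exact (sD_pos hd).ne'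
  · intro d hd
    exact div_pos hx (sD_pos hd)

lemma cont_G {G : (Pl k → ℝ) → ℝ} {η : ℝ} (hG : GW η G) {T : ℝ} (hT : 1 ≤ T)
    {h : (Pl k → ℝ) → ℝ} (hh : ContinuousOn h {d | ∀ v, 0 < d v}) :
    Continuous (fun d => G (fun v => d v / T) * h d) := by
  have hT0 : 0 < T := by linarith
  have hη := hG.pos
  refine cont_mul (K := {d : Pl k → ℝ | ∀ v, d v ∈ Icc (η * T) (T / η)})
    (isClosed_box _ _) isOpen_cone ?_ ?_ ?_ hh
  · intro d hd v
    exact lt_of_lt_of_le (mul_pos hη hT0) (hd v).1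
  · have h1 : Continuous (fun d : Pl k → ℝ => (fun v => d v / T)) := by fun_prop
    exact hG.smooth.continuous.comp h1
  · intro d hd
    apply hG.supp
    by_contra hcon
    push Not at hcon
    apply hd
    intro v
    have h1 := hcon v
    rw [mem_Icc, le_div_iff₀ hT0, div_le_iff₀ hT0] at h1
    refine ⟨h1.1, ?_⟩
    rw [div_eq_mul_one_div, mul_comm]
    exact h1.2

theorem pf_DRV (hDER : T_DER) (hZCB : T_ZCB) (hVKF : T_VKF) : T_DRV k := by
  intro f G η hf hG
  obtain ⟨j, hj⟩ := hDER k G η hG.pos hG.smooth hG.supp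
  refine ⟨j, fun m B => ?_⟩
  obtain ⟨C, hC, hC'⟩ := hj m B
  have hf0 : 0 ≤ nm f := Nat.cast_nonneg _
  refine ⟨C * (1 + nm f) ^ j, by positivity, ?_⟩
  intro A b T x hA hT hx
  have hT0 : 0 < T := by linarith
  have hA0 : 0 ≤ nm A := Nat.cast_nonneg _
  have hle : C * (nm A + nm f + T) ^ j ≤ C * (1 + nm f) ^ j * (nm A + T) ^ j := by
    rw [mul_assoc, ← mul_pow]
    refine mul_le_mul_of_nonneg_left ?_ hC.le
    refine pow_le_pow_left₀ (by positivity) ?_ j
    nlinarith [mul_nonneg hf0 hA0, mul_nonneg hf0 (sub_nonneg.2 hT)]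
  let A' : (Ideal (𝓞 k))⁰ := ⟨A, mem_nonZeroDivisors_of_ne_zero hA⟩
  let f' : (Ideal (𝓞 k))⁰ := ⟨f, mem_nonZeroDivisors_of_ne_zero hf⟩
  have hzc : ContinuousOn (zf A f b) {D | ∀ v, 0 < D v} := (hZCB k).1 A' f' b
  have hTd : ∀ d : Pl k → ℝ, (fun v => T * (d v / T)) = d := by
    intro d
    funext v
    field_simp
  constructor
  · refine DB_mono (L := C * (nm A + nm f + T) ^ j / T ^ m) ?_ ?_
    · refine DB_scale hT0 _ (fun u => G u * zf A f b (fun v => T * u v)) ?_ ?_ ?_
      · exact cont_G k hG hT hzc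
      · intro d
        simp only [hTd]
      · intro p e he
        exact (hC' A' f' b p e T x hT hx he).1
    · exact div_le_div_of_nonneg_right hle (by positivity)
  · refine DB_mono (L := C * (nm A + nm f + T) ^ j *
      (1 + x / T ^ ((dg k : ℝ) / 2)) ^ (-(B : ℝ)) / T ^ m) ?_ ?_
    · refine DB_scale hT0 _ (fun u => G u * (Vk k (x / sD (fun v => T * u v)) *
        zf A f b (fun v => T * u v))) ?_ ?_ ?_
      · exact cont_G k hG hT ((contOn_Vk k hVKF hx).mul hzc)
      · intro d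
        simp only [hTd]
      · intro p e he
        exact (hC' A' f' b p e T x hT hx he).2
    · rw [mul_div_right_comm]
      refine mul_le_mul_of_nonneg_right ?_ (by positivity)
      exact div_le_div_of_nonneg_right hle (by positivity)

end Pool.Agent.H83.NVP_DRV
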