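import Pool.Agent.H65.NV.PTargets

/-!
# (AVS) the average, from the terms
-/

set_option autoImplicit false

open MeasureTheory Set Filter NumberField NumberField.InfinitePlace
open Pool.Agent.H65.CM4 Pool.Agent.H61.NVK Pool.Agent.H89.NV Pool.Agent.H65.NV
open scoped Real

namespace Pool.Agent.H83.NVP_AVS

lemma main_ineq (g : ℕ) (hg : 1 ≤ g) (n δ T P Q W : ℝ) (hn : 1 ≤ n) (hδ : 0 < δ) (hT : 1 ≤ T)
    (hP : 1 ≤ P) (hPQ : P ≤ Q) (hW : W ≤ n * T ^ ((g : ℝ) * (1 / 2 - 2 * δ)))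
    (hQ : Q ≤ W * T ^ ((g : ℝ) * (1 / 2 + δ / 2))) :
    T ^ (-(10 * g : ℝ)) * P ^ 2 ≤ n ^ 2 * T⁻¹ ^ 3 := by
  have hT0 : 0 < T := by linarith
  have hg1 : (1 : ℝ) ≤ g := by exact_mod_cast hg
  have h1 : P ≤ n * T ^ g := by
    calc P ≤ Q := hPQ
      _ ≤ W * T ^ ((g : ℝ) * (1 / 2 + δ / 2)) := hQ
      _ ≤ n * T ^ ((g : ℝ) * (1 / 2 - 2 * δ)) * T ^ ((g : ℝ) * (1 / 2 + δ / 2)) :=
        mul_le_mul_of_nonneg_right hW (by positivity)
      _ = n * T ^ ((g : ℝ) * (1 / 2 - 2 * δ) + (g : ℝ) * (1 / 2 + δ / 2)) := by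
        rw [mul_assoc, Real.rpow_add hT0]
      _ ≤ n * T ^ (g : ℝ) := by
        refine mul_le_mul_of_nonneg_left ?_ (by linarith)
        refine Real.rpow_le_rpow_of_exponent_le hT ?_
        nlinarith [mul_pos (by linarith : (0 : ℝ) < g) hδ]
      _ = n * T ^ g := by rw [Real.rpow_natCast]
  have h2 : P ^ 2 ≤ (n * T ^ g) ^ 2 := pow_le_pow_left₀ (by linarith) h1 2
  have h3 : T ^ (-(10 * g : ℝ)) = (T ^ (10 * g))⁻¹ := by
    rw [Real.rpow_neg hT0.le, ← Real.rpow_natCast]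
    push_cast
    rfl
  rw [h3]
  calc (T ^ (10 * g))⁻¹ * P ^ 2 ≤ (T ^ (10 * g))⁻¹ * (n * T ^ g) ^ 2 :=
        mul_le_mul_of_nonneg_left h2 (by positivity)
    _ = n ^ 2 * ((T ^ (10 * g))⁻¹ * T ^ (2 * g)) := by
        rw [mul_pow, ← pow_mul, mul_comm g 2]
        ring
    _ ≤ n ^ 2 * T⁻¹ ^ 3 := by
        refine mul_le_mul_of_nonneg_left ?_ (by positivity)
        have h4 : T ^ (10 * g) = T ^ (2 * g) * T ^ (8 * g) := by
          rw [← pow_add]
          congr 1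
          ring
        have h5 : T ^ 3 ≤ T ^ (8 * g) := pow_le_pow_right₀ hT (by omega)
        rw [h4, mul_inv, mul_right_comm, inv_mul_cancel₀ (by positivity), one_mul, inv_pow]
        exact inv_anti₀ (by positivity) h5

lemma tail_ineq (g : ℕ) (n δ : ℝ) (hn : 1 ≤ n) (hδ : 0 < δ) (j M : ℕ)
    (hM : ((g + j + g * (j + 2) + 3 : ℕ) : ℝ) ≤ (g : ℝ) * δ / 2 * M) (T P Q W : ℝ) (hT : 1 ≤ T)
    (hP : 1 ≤ P) (hPQ : P ≤ Q) (hW1 : 1 ≤ W) (hW : W ≤ n * T ^ ((g : ℝ) * (1 / 2 - 2 * δ)))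
    (hQ : W * T ^ ((g : ℝ) * (1 / 2 + δ / 2)) < Q) :
    T ^ g * ((T * P) ^ j * (1 + Q / (W * T ^ ((g : ℝ) / 2))) ^ (-((j + 2 + M : ℕ) : ℝ))) * P ^ 2 ≤
      n ^ (j + 2) * T⁻¹ ^ 3 := by
  have hT0 : 0 < T := by linarith
  have hW0 : 0 < W := by linarith
  have hg0 : (0 : ℝ) ≤ g := Nat.cast_nonneg g
  set y : ℝ := Q / (W * T ^ ((g : ℝ) / 2)) with hy
  have hTg : 0 < T ^ ((g : ℝ) / 2) := by positivity
  have hyT : T ^ ((g : ℝ) * δ / 2) < y := by
    rw [hy, lt_div_iff₀ (by positivity)]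
    calc T ^ ((g : ℝ) * δ / 2) * (W * T ^ ((g : ℝ) / 2))
        = W * (T ^ ((g : ℝ) * δ / 2) * T ^ ((g : ℝ) / 2)) := by ring
      _ = W * T ^ ((g : ℝ) * (1 / 2 + δ / 2)) := by
        rw [← Real.rpow_add hT0]
        congr 2
        ring
      _ < Q := hQ
  have hy0 : 0 < y := lt_trans (by positivity) hyT
  have hQy : Q = y * (W * T ^ ((g : ℝ) / 2)) := by
    rw [hy]
    field_simp
  have hQle : P ≤ n * T ^ g * y := by
    calc P ≤ Q := hPQ
      _ = y * (W * T ^ ((g : ℝ) / 2)) := hQy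
      _ ≤ y * (n * T ^ ((g : ℝ) * (1 / 2 - 2 * δ)) * T ^ ((g : ℝ) / 2)) := by
        refine mul_le_mul_of_nonneg_left ?_ hy0.le
        exact mul_le_mul_of_nonneg_right hW (by positivity)
      _ = y * (n * T ^ ((g : ℝ) * (1 / 2 - 2 * δ) + (g : ℝ) / 2)) := by
        rw [mul_assoc n, Real.rpow_add hT0]
      _ ≤ y * (n * T ^ (g : ℝ)) := by
        refine mul_le_mul_of_nonneg_left ?_ hy0.le
        refine mul_le_mul_of_nonneg_left ?_ (by linarith)
        refine Real.rpow_le_rpow_of_exponent_le hT ?_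
        nlinarith [mul_nonneg hg0 hδ.le]
      _ = n * T ^ g * y := by
        rw [Real.rpow_natCast]
        ring
  have hrp : (1 + y) ^ (-((j + 2 + M : ℕ) : ℝ)) ≤ (y ^ (j + 2))⁻¹ * (y ^ M)⁻¹ := by
    rw [Real.rpow_neg (by positivity), Real.rpow_natCast, ← mul_inv, ← pow_add]
    refine inv_anti₀ (by positivity) ?_
    exact pow_le_pow_left₀ hy0.le (by linarith) _
  have hyM : T ^ (g + j + g * (j + 2) + 3) ≤ y ^ M := by
    calc T ^ (g + j + g * (j + 2) + 3) = T ^ ((g + j + g * (j + 2) + 3 : ℕ) : ℝ) := by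
          rw [Real.rpow_natCast]
      _ ≤ T ^ ((g : ℝ) * δ / 2 * M) := Real.rpow_le_rpow_of_exponent_le hT hM
      _ = (T ^ ((g : ℝ) * δ / 2)) ^ M := by
          rw [Real.rpow_mul hT0.le, Real.rpow_natCast]
      _ ≤ y ^ M := pow_le_pow_left₀ (by positivity) hyT.le M
  have hyM' : (y ^ M)⁻¹ ≤ (T ^ (g + j + g * (j + 2) + 3))⁻¹ := inv_anti₀ (by positivity) hyM
  have hPp : P ^ (j + 2) ≤ (n * T ^ g * y) ^ (j + 2) := pow_le_pow_left₀ (by linarith) hQle _
  have hn0 : 0 < n := by linarith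
  have hP0 : 0 < P := by linarith
  calc T ^ g * ((T * P) ^ j * (1 + y) ^ (-((j + 2 + M : ℕ) : ℝ))) * P ^ 2
      = T ^ g * T ^ j * (P ^ (j + 2) * (1 + y) ^ (-((j + 2 + M : ℕ) : ℝ))) := by
        rw [mul_pow, pow_add P j 2]
        ring
    _ ≤ T ^ g * T ^ j * ((n * T ^ g * y) ^ (j + 2) *
          ((y ^ (j + 2))⁻¹ * (T ^ (g + j + g * (j + 2) + 3))⁻¹)) := by
        refine mul_le_mul_of_nonneg_left ?_ (by positivity)
        refine mul_le_mul hPp ?_ (by positivity) (by positivity)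
        refine hrp.trans ?_
        exact mul_le_mul_of_nonneg_left hyM' (by positivity)
    _ = n ^ (j + 2) * T⁻¹ ^ 3 := by
        have e1 : T ^ (g + j + g * (j + 2) + 3) =
            T ^ g * T ^ j * (T ^ g) ^ (j + 2) * T ^ 3 := by
          rw [pow_add, pow_add, pow_add, pow_mul]
        rw [e1, mul_pow, mul_pow]
        field_simp

variable (k : Type) [Field k] [NumberField k] [IsTotallyReal k]

theorem pf_AVS (hEMB : T_EMB k) : T_AVS k := by
  intro hINN hTAD hCTM hISM hXCH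
  intro f q G η hf hq hG n K δ hn hδ hδ1
  obtain ⟨hcard, hg0, hdk, -, -, -, -, -, -, -, hnm1, -⟩ := hEMB
  have hg1 : 1 ≤ dg k := hg0
  obtain ⟨T1, hT1⟩ := hINN f q G η hf hq hG n K δ hn hδ hδ1
  obtain ⟨j, hj⟩ := hTAD f q G η hf hq hG n K hn
  obtain ⟨C1, hC1, hC1'⟩ := hCTM f q G η hf hG
  have hgδ : 0 < (dg k : ℝ) * δ / 2 := by
    have : (0 : ℝ) < dg k := by exact_mod_cast hg0
    positivity
  obtain ⟨M, hM⟩ := exists_nat_ge
    (((dg k + j + dg k * (j + 2) + 3 : ℕ) : ℝ) / ((dg k : ℝ) * δ / 2))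
  rw [div_le_iff₀ hgδ, mul_comm (M : ℝ)] at hM
  obtain ⟨C2, hC2, hC2'⟩ := hj (j + 2 + M)
  set κ : ℝ := |kf f / 2 ^ dg k| with hκ
  have hκ0 : 0 ≤ κ := abs_nonneg _
  set U : ℝ := ∑' x : Ideal (𝓞 k) × Ideal (𝓞 k), (nm x.1 ^ 2)⁻¹ * (nm x.2 ^ 2)⁻¹ with hU
  have hU0 : 0 ≤ U := tsum_nonneg fun x => by positivity
  set R : ℝ := n ^ 2 + (1 + κ) * C1 * C2 * n ^ (j + 2) with hR
  have hn0 : 0 < n := by linarith
  have hR0 : 0 ≤ R := by positivity
  refine ⟨max (max 1 T1) (R * U), ?_⟩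
  intro T hT m₁ m₂ w hw hP hm₁ hm₂
  have hT' : 1 ≤ T := (le_max_left _ _).trans ((le_max_left _ _).trans hT)
  have hTT1 : T1 ≤ T := (le_max_right _ _).trans ((le_max_left _ _).trans hT)
  have hTRU : R * U ≤ T := (le_max_right _ _).trans hT
  have hT0 : 0 < T := by linarith
  have hnS : ∀ m : Finset (PrI k), 1 ≤ nS m := by
    intro m
    unfold nS
    calc (1 : ℝ) = ∏ _P ∈ m, 1 := by simp
      _ ≤ ∏ P ∈ m, np P := Finset.prod_le_prod (fun _ _ => zero_le_one) fun P _ =>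
          (hnm1 P.1 P.2.2).1
  have hpow : ∀ m : Finset (PrI k), nS m ≤ T ^ (dg k * (1 / 4 - δ)) → nS m ≤ T ^ dg k := by
    intro m hm
    refine hm.trans ?_
    rw [← Real.rpow_natCast]
    refine Real.rpow_le_rpow_of_exponent_le hT' ?_
    have : (0 : ℝ) ≤ dg k := Nat.cast_nonneg _
    nlinarith
  obtain ⟨hsum, heq⟩ := hXCH f q G η hf hq hG n K hn T m₁ m₂ w hT' hw (hpow m₁ hm₁) (hpow m₂ hm₂)
  rw [heq]
  set W : ℝ := n * nS m₁ * nS m₂ with hW
  have hW1 : 1 ≤ W := by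
    rw [hW]
    have h1 : 1 ≤ n * nS m₁ := one_le_mul_of_one_le_of_one_le hn (hnS m₁)
    exact one_le_mul_of_one_le_of_one_le h1 (hnS m₂)
  have hWle : W ≤ n * T ^ ((dg k : ℝ) * (1 / 2 - 2 * δ)) := by
    rw [hW, mul_assoc]
    refine mul_le_mul_of_nonneg_left ?_ hn0.le
    calc nS m₁ * nS m₂ ≤ T ^ (dg k * (1 / 4 - δ)) * T ^ (dg k * (1 / 4 - δ)) :=
          mul_le_mul hm₁ hm₂ (by linarith [hnS m₂]) (by positivity)
      _ = T ^ ((dg k : ℝ) * (1 / 2 - 2 * δ)) := by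
          rw [← Real.rpow_add hT0]
          congr 1
          ring
  obtain ⟨⟨s, hs, hs0⟩, ⟨S, hSm, hSv, hSf, hS0⟩, -⟩ := hC1' T hT'
  have key : ∀ x : Ideal (𝓞 k) × Ideal (𝓞 k),
      ‖(∑' D : 𝓞 k, Tm f G T n m₁ m₂ w x.1 x.2 D) -
        kf f / 2 ^ dg k * ∫ d, Dm f q G T n m₁ m₂ w x.1 x.2 d‖ ≤
      R * T⁻¹ ^ 3 * ((nm x.1 ^ 2)⁻¹ * (nm x.2 ^ 2)⁻¹) := by
    rintro ⟨e, A⟩
    dsimp only
    by_cases he : e = ⊥ ∨ A = ⊥
    · have hnm : nm (e ^ 2 * A) = 0 := by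
        rcases he with he | he
        · subst he
          simp [nm]
        · subst he
          simp [nm]
      have hwt : ∀ d : Pl k → ℝ, wt f (n * nS m₁ * nS m₂) e A d = 0 := by
        intro d
        unfold wt
        rw [hnm]
        simp
      have h1 : ∀ D, Tm f G T n m₁ m₂ w e A D = 0 := by
        intro D
        unfold Tm
        rw [Finset.sum_eq_zero, mul_zero]
        intro b _
        rw [hwt]
        ring
      have h2 : ∀ d, Dm f q G T n m₁ m₂ w e A d = 0 := by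
        intro d
        unfold Dm
        rw [hwt]
        ring
      simp only [h1, h2, tsum_zero, integral_zero, mul_zero, sub_zero, norm_zero]
      positivity
    · push Not at he
      obtain ⟨he, hA⟩ := he
      have he1 : 1 ≤ nm e := (hnm1 e he).1
      have hA1 : 1 ≤ nm A := (hnm1 A hA).1
      have hQdef : nm (e ^ 2 * A) = nm e ^ 2 * nm A := by
        simp [nm]
      have hP1 : 1 ≤ nm e * nm A := one_le_mul_of_one_le_of_one_le he1 hA1
      have hPQ : nm e * nm A ≤ nm (e ^ 2 * A) := by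
        rw [hQdef]
        refine mul_le_mul_of_nonneg_right ?_ (by linarith)
        nlinarith
      have hu : (nm e ^ 2)⁻¹ * (nm A ^ 2)⁻¹ = ((nm e * nm A) ^ 2)⁻¹ := by
        rw [mul_pow, mul_inv]
      rw [hu, ← div_eq_mul_inv, le_div_iff₀ (by positivity), Real.norm_eq_abs]
      rcases le_or_gt (nm (e ^ 2 * A)) (W * T ^ ((dg k : ℝ) * (1 / 2 + δ / 2))) with hc | hc
      · have h1 := hT1 T hTT1 m₁ m₂ w e A hw hP hm₁ hm₂ he hA hc
        have h2 := main_ineq (dg k) hg1 n δ T (nm e * nm A) (nm (e ^ 2 * A)) W hn hδ hT' hP1 hPQ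
          hWle hc
        refine (mul_le_mul_of_nonneg_right h1 (by positivity)).trans (h2.trans ?_)
        refine mul_le_mul_of_nonneg_right ?_ (by positivity)
        rw [hR]
        have : 0 ≤ (1 + κ) * C1 * C2 * n ^ (j + 2) := by positivity
        linarith
      · obtain ⟨hb1, hb2⟩ := hC2' T m₁ m₂ w e A hT' hw (hpow m₁ hm₁) (hpow m₂ hm₂) he hA
        rw [← hW] at hb1 hb2
        set Bd : ℝ := C2 * (T * nm e * nm A) ^ j *
          (1 + nm (e ^ 2 * A) / (W * T ^ ((dg k : ℝ) / 2))) ^ (-((j + 2 + M : ℕ) : ℝ)) with hBd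
        have hBd0 : 0 ≤ Bd := (abs_nonneg _).trans (hb1 0)
        have h1 : |∑' D : 𝓞 k, Tm f G T n m₁ m₂ w e A D| ≤ C1 * T ^ dg k * Bd := by
          rw [tsum_eq_sum (s := s)]
          · refine (Finset.abs_sum_le_sum_abs _ _).trans ?_
            refine (Finset.sum_le_sum fun D _ => hb1 D).trans ?_
            rw [Finset.sum_const, nsmul_eq_mul]
            exact mul_le_mul_of_nonneg_right hs hBd0
          · intro D hD
            unfold Tm
            rw [hs0 D hD, zero_mul]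
        have h2 : |∫ d, Dm f q G T n m₁ m₂ w e A d| ≤ C1 * T ^ dg k * Bd := by
          rw [← setIntegral_eq_integral_of_forall_compl_eq_zero (s := S)]
          · have h3 := norm_setIntegral_le_of_norm_le_const (μ := volume) (s := S)
              (f := fun d => Dm f q G T n m₁ m₂ w e A d) (C := Bd) (lt_top_iff_ne_top.2 hSf)
              (fun d _ => hb2 d)
            rw [Real.norm_eq_abs] at h3
            refine h3.trans ?_
            rw [mul_comm]
            exact mul_le_mul_of_nonneg_right hSv hBd0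
          · intro d hd
            unfold Dm
            rw [hS0 d hd, zero_mul]
        have h3 : |(∑' D : 𝓞 k, Tm f G T n m₁ m₂ w e A D) -
            kf f / 2 ^ dg k * ∫ d, Dm f q G T n m₁ m₂ w e A d| ≤
            (1 + κ) * (C1 * T ^ dg k * Bd) := by
          refine (abs_sub _ _).trans ?_
          rw [abs_mul, add_mul, one_mul]
          exact add_le_add h1 (mul_le_mul_of_nonneg_left h2 hκ0)
        have h4 := tail_ineq (dg k) n δ hn hδ j M hM T (nm e * nm A) (nm (e ^ 2 * A)) W hT'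
          hP1 hPQ hW1 hWle hc
        refine (mul_le_mul_of_nonneg_right h3 (by positivity)).trans ?_
        calc (1 + κ) * (C1 * T ^ dg k * Bd) * (nm e * nm A) ^ 2
            = (1 + κ) * C1 * C2 * (T ^ dg k * ((T * (nm e * nm A)) ^ j *
              (1 + nm (e ^ 2 * A) / (W * T ^ ((dg k : ℝ) / 2))) ^ (-((j + 2 + M : ℕ) : ℝ))) *
              (nm e * nm A) ^ 2) := by
              rw [hBd, ← mul_assoc T (nm e)]
              ring
          _ ≤ (1 + κ) * C1 * C2 * (n ^ (j + 2) * T⁻¹ ^ 3) :=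
              mul_le_mul_of_nonneg_left h4 (by positivity)
          _ ≤ R * T⁻¹ ^ 3 := by
              rw [← mul_assoc]
              refine mul_le_mul_of_nonneg_right ?_ (by positivity)
              rw [hR]
              have : 0 ≤ n ^ 2 := by positivity
              linarith
  have hbd : HasSum (fun x : Ideal (𝓞 k) × Ideal (𝓞 k) =>
      R * T⁻¹ ^ 3 * ((nm x.1 ^ 2)⁻¹ * (nm x.2 ^ 2)⁻¹)) (R * T⁻¹ ^ 3 * U) :=
    (hISM.hasSum).mul_left _
  have hfin := tsum_of_norm_bounded hbd key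
  rw [Real.norm_eq_abs] at hfin
  refine hfin.trans ?_
  rw [Real.rpow_neg_one]
  calc R * T⁻¹ ^ 3 * U = R * U * T⁻¹ ^ 3 := by ring
    _ ≤ T * T⁻¹ ^ 3 := mul_le_mul_of_nonneg_right hTRU (by positivity)
    _ = T⁻¹ ^ 2 := by field_simp
    _ ≤ T⁻¹ := by
        have h1 : T⁻¹ ≤ 1 := inv_le_one_of_one_le₀ hT'
        have h0 : 0 ≤ T⁻¹ := by positivity
        nlinarith

end Pool.Agent.H83.NVP_AVS
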